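import Pool.Agent.W420.NS.Stm

set_option autoImplicit false

namespace Pool.Agent.W381.NS

open Pool.Agent.W420.NS

lemma range_filterMap {α : Type} (l : List α) :
    (List.range l.length).filterMap (fun i => l[i]?) = l := by
  induction l using List.reverseRecOn with
  | nil => rfl
  | append_singleton l a ih =>
    rw [List.length_append, List.length_singleton, List.range_succ, List.filterMap_append]
    have h1 : (List.range l.length).filterMap (fun i => (l ++ [a])[i]?) =
        (List.range l.length).filterMap (fun i => l[i]?) := by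
      refine List.filterMap_congr fun i hi => ?_
      rw [List.mem_range] at hi
      exact List.getElem?_append_left hi
    rw [h1, ih]
    congr 1
    simp

lemma ord_perm {α : Type} (σ : List ℕ) (l : List α) (h : σ.Perm (List.range l.length)) :
    (ord σ l).Perm l := by
  have h1 : (ord σ l).Perm ((List.range l.length).filterMap (fun i => l[i]?)) :=
    h.filterMap _
  rwa [range_filterMap] at h1

theorem slr : S_SLR := by
  intro A σ h hA
  have hp : (ord σ A.D).Perm A.D := ord_perm σ A.D h
  refine ⟨fun x => ?_, hp.length_eq⟩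
  have h1 : (ends (A.re σ)).Perm (ends A) := by
    show (ord σ A.D ++ A.E.flatMap fun e => [e.1, e.2]).Perm (A.D ++ A.E.flatMap fun e => [e.1, e.2])
    exact hp.append_right _
  exact (h1.count_eq x).trans (hA x)

lemma zip_perm {α : Type} : ∀ l1 l2 : List α, l1.length = l2.length →
    ((l1.zip l2).flatMap (fun e => [e.1, e.2])).Perm (l1 ++ l2) := by
  intro l1
  induction l1 with
  | nil =>
    intro l2 h
    have : l2 = [] := by
      rw [List.length_nil] at h
      exact List.eq_nil_of_length_eq_zero h.symm
    subst this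
    exact List.Perm.refl _
  | cons a l1 ih =>
    intro l2 h
    cases l2 with
    | nil => simp at h
    | cons b l2 =>
      rw [List.zip_cons_cons, List.flatMap_cons]
      have h1 := ih l2 (by simpa using h)
      show (a :: b :: ((l1.zip l2).flatMap (fun e => [e.1, e.2]))).Perm (a :: (l1 ++ b :: l2))
      refine List.Perm.cons _ ?_
      exact (h1.cons b).trans List.perm_middle.symm

lemma lmap_inj {V W : Type} {f : V → W} (hf : Function.Injective f) :
    Function.Injective (lmap f) := by
  rintro ⟨a, i⟩ ⟨b, j⟩ h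
  unfold lmap at h
  simp only [Prod.mk.injEq] at h
  obtain ⟨h1, h2⟩ := h
  rw [hf h1, h2]

lemma flat_map {V W : Type} (f : V → W) (E : List ((V × Fin 3) × (V × Fin 3))) :
    (E.map fun e => (lmap f e.1, lmap f e.2)).flatMap (fun e => [e.1, e.2]) =
      (E.flatMap fun e => [e.1, e.2]).map (lmap f) := by
  induction E with
  | nil => rfl
  | cons e E ih =>
    rw [List.map_cons, List.flatMap_cons, ih, List.flatMap_cons, List.map_append]
    rfl

lemma perm_aux {α : Type} (tA dA eA tB dB eB Z : List α) (h : Z.Perm (tA ++ tB)) :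
    ((dA ++ dB) ++ (eA ++ (eB ++ Z))).Perm (((tA ++ dA) ++ eA) ++ ((tB ++ dB) ++ eB)) := by
  classical
  rw [List.perm_iff_count]
  intro x
  have := h.count_eq x
  simp only [List.count_append] at this ⊢
  omega

lemma join_perm (A B : Pole) (s : ℕ) (hA : s ≤ A.D.length) (hB : s ≤ B.D.length) :
    List.Perm (α := (A.V ⊕ B.V) × Fin 3) (ends (A.join B s))
      ((ends A).map (lmap (Sum.inl : A.V → A.V ⊕ B.V)) ++
        (ends B).map (lmap (Sum.inr : B.V → A.V ⊕ B.V))) := by
  have hlen : ((A.D.take s).map (lmap (Sum.inl : A.V → A.V ⊕ B.V))).length =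
      ((B.D.take s).map (lmap (Sum.inr : B.V → A.V ⊕ B.V))).length := by
    rw [List.length_map, List.length_map, List.length_take, List.length_take,
      min_eq_left hA, min_eq_left hB]
  have h := perm_aux ((A.D.take s).map (lmap (Sum.inl : A.V → A.V ⊕ B.V)))
    ((A.D.drop s).map (lmap (Sum.inl : A.V → A.V ⊕ B.V)))
    ((A.E.flatMap fun e => [e.1, e.2]).map (lmap (Sum.inl : A.V → A.V ⊕ B.V)))
    ((B.D.take s).map (lmap (Sum.inr : B.V → A.V ⊕ B.V)))
    ((B.D.drop s).map (lmap (Sum.inr : B.V → A.V ⊕ B.V)))
    ((B.E.flatMap fun e => [e.1, e.2]).map (lmap (Sum.inr : B.V → A.V ⊕ B.V)))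
    _ (zip_perm _ _ hlen)
  rw [← List.map_append, List.take_append_drop, ← List.map_append, ← List.map_append,
    List.take_append_drop, ← List.map_append, ← flat_map, ← flat_map, ← List.flatMap_append,
    ← List.flatMap_append] at h
  exact h

lemma cnt_iff {α : Type} [BEq α] [LawfulBEq α] (l : List α) (x : α) :
    l.count x = 1 ↔ ∃ m : List α, l.Perm (x :: m) ∧ x ∉ m := by
  constructor
  · intro h
    have hx : x ∈ l := by
      rw [← List.count_pos_iff]
      omega
    refine ⟨l.erase x, List.perm_cons_erase hx, ?_⟩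
    rw [← List.count_eq_zero, List.count_erase_self, h]
  · rintro ⟨m, hm, hx⟩
    rw [hm.count_eq x, List.count_cons_self, List.count_eq_zero.2 hx]

lemma one_map {α β : Type} (f : α → β) (hf : Function.Injective f) (l : List α) (x : α)
    (n : List β) (hn : f x ∉ n) (h : ∃ m : List α, l.Perm (x :: m) ∧ x ∉ m) :
    ∃ m : List β, (l.map f ++ n).Perm (f x :: m) ∧ f x ∉ m := by
  obtain ⟨m, hm, hx⟩ := h
  refine ⟨m.map f ++ n, ?_, ?_⟩
  · exact (hm.map f).append_right n
  · rw [List.mem_append, not_or]
    refine ⟨fun h => ?_, hn⟩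
    rw [List.mem_map] at h
    obtain ⟨y, hy, e⟩ := h
    exact hx (hf e ▸ hy)

theorem slj : S_SLJ := by
  intro A B s hA hB h1 h2
  refine ⟨fun x => ?_, ?_⟩
  · have hp := join_perm A B s hA hB
    refine (cnt_iff _ _).2 ?_
    obtain ⟨v, i⟩ := x
    cases v with
    | inl a =>
      have h3 := (cnt_iff _ _).1 (h1 (a, i))
      obtain ⟨m, hm, hx⟩ := one_map (lmap (Sum.inl : A.V → A.V ⊕ B.V)) (lmap_inj Sum.inl_injective) (ends A) (a, i)
        ((ends B).map (lmap (Sum.inr : B.V → A.V ⊕ B.V))) (by
          intro h
          rw [List.mem_map] at h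
          obtain ⟨y, -, hy⟩ := h
          unfold lmap at hy
          simp at hy) h3
      exact ⟨m, hp.trans hm, hx⟩
    | inr b =>
      have h3 := (cnt_iff _ _).1 (h2 (b, i))
      obtain ⟨m, hm, hx⟩ := one_map (lmap (Sum.inr : B.V → A.V ⊕ B.V)) (lmap_inj Sum.inr_injective) (ends B) (b, i)
        ((ends A).map (lmap (Sum.inl : A.V → A.V ⊕ B.V))) (by
          intro h
          rw [List.mem_map] at h
          obtain ⟨y, -, hy⟩ := h
          unfold lmap at hy
          simp at hy) h3
      exact ⟨m, (hp.trans List.perm_append_comm).trans hm, hx⟩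
  · show ((A.D.drop s).map (lmap (Sum.inl : A.V → A.V ⊕ B.V)) ++
      (B.D.drop s).map (lmap Sum.inr)).length = _
    rw [List.length_append, List.length_map, List.length_map, List.length_drop,
      List.length_drop]

end Pool.Agent.W381.NS
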